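import Pool.Agent.U222.AC.Core

/-!
# Conjugates of Hodge classes on products of coverings and arbitrary varieties: definitions
-/

set_option autoImplicit false

open CategoryTheory AlgebraicGeometry

universe u

namespace Pool.Agent.U222.AC.Con

open Pool.Agent.H914 Pool.Agent.H914.VarClass Pool.Agent.H914.VarClass.Obj
  Pool.Agent.H914.WeilCohomology Pool.Agent.Y121.AHS Pool.Agent.U222.AC

variable {k : Type u} [Field k] {𝒱 : VarClass k} {ops : CycleOps 𝒱} {T T' : HodgeTheory ops}
  {L : Type} [Field L] [Algebra T.W.K L] [Algebra T'.W.K L]

/-- The class `v` of degree `2 j` is a Hodge class and its image under the comparison isomorphism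
`C` is a Hodge class of the theory `T'`. -/
def IsConjugable (C : Comparison T.W T'.W L) (Y : 𝒱.Obj) (j : ℕ) (v : T.W.H Y) : Prop :=
  IsHodge T Y j v ∧ ∃ w, IsHodge T' Y j w ∧ C.Maps j v (emL T'.W L w)

/-- Every Hodge class on `Y` is conjugable. -/
def HodgeAreConjugable (C : Comparison T.W T'.W L) (Y : 𝒱.Obj) : Prop :=
  ∀ j v, IsHodge T Y j v → IsConjugable C Y j v

/-- The conclusions for the product of `X` and `Z` and one comparison isomorphism:

* the conjugable classes on `X × Z` are linear combinations of products of classes of algebraic cycles on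
  `X` and of conjugable classes on `Z`;
* all Hodge classes on `X × Z` are conjugable if and only if all Hodge classes on `Z` are;
* they are conjugable if `Z` is a curve, and, by the theorem of Lefschetz on the classes of type `(1, 1)`
  for `Z`, also if `Z` is a surface or a threefold. -/
structure Conclusions (C : Comparison T.W T'.W L) (X Z : 𝒱.Obj) : Prop where
  classes : ∀ j c, IsConjugable C (X.prod Z) j c → IsComb T.W.K (prods (T.W.map (fst X Z))
    (T.W.map (snd X Z)) (allCycleClasses T.W X) {v | ∃ l, IsConjugable C Z l v}) c
  iff : HodgeAreConjugable C (X.prod Z) ↔ HodgeAreConjugable C Z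
  curve : Z.dim ≤ 1 → HodgeAreConjugable C (X.prod Z)
  threefold : Z.dim ≤ 3 → HasLefschetz T Z → HodgeAreConjugable C (X.prod Z)

end Pool.Agent.U222.AC.Con
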