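import Pool.Agent.U222.AC.Core
import Pool.Agent.U222.HD.Cov

/-!
# Coverings of large prime degrees: translation
-/

set_option autoImplicit false

open CategoryTheory AlgebraicGeometry

universe u

namespace Pool.Agent.U222.AC

open Pool.Agent.H914 Pool.Agent.H914.VarClass Pool.Agent.H914.VarClass.Obj
  Pool.Agent.H914.WeilCohomology Pool.Agent.Y121 Pool.Agent.Y121.AHS

variable {k : Type u} [Field k] {𝒱 : VarClass k} {ops : CycleOps 𝒱}

/-- the group generated by `t` -/
noncomputable def toG (X : 𝒱.Obj) (t : End X) (N : ℕ) [NeZero N] (h : t ^ N = 1) : HC.GVar 𝒱 where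
  X := X
  G := ZMod N
  act g := (t ^ g.val : End X)
  act_zero := by
    rw [ZMod.val_zero, pow_zero]
    rfl
  act_add g g' := by
    have h1 : (t ^ (g + g').val : End X) = t ^ g'.val * t ^ g.val := by
      rw [ZMod.val_add, ← pow_eq_pow_mod _ h, ← pow_add, add_comm]
    exact h1

theorem prodOf_eq : ∀ (n : ℕ) (A : HC.Fam 𝒱 n), prodOf n (fun i => (A i).X) = HC.product n A
  | 0, _ => rfl
  | n + 1, A => by
    have h1 := prodOf_eq n (fun i => A i.succ)
    change (A 0).X.prod (prodOf n fun i => (A i.succ).X) =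
      (A 0).X.prod (HC.product n fun i => A i.succ)
    rw [h1]

section

variable {T : AHS.HodgeTheory ops} {X : 𝒱.Obj} {t : End X} {N d a : ℕ} [NeZero N]

omit [NeZero N] in
theorem eigen_congr {X : 𝒱.Obj} {f : T.W.H X →ₐ[T.W.K] T.W.H X} {x : Ext T.W.K ℂ (T.W.H X)}
    {w w' : ℂ} (h : w = w') (h1 : IsEigen f w x) : IsEigen f w' x := by
  rw [← h]
  exact h1

omit [NeZero N] in
theorem val_pow (χ : AddChar (ZMod N) ℂ) (n : ℕ) : χ (n : ZMod N) = χ 1 ^ n := by
  rw [← AddChar.map_nsmul_eq_pow, nsmul_eq_mul, mul_one]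

theorem eigen_of (hN : 1 < N) (h : t ^ N = 1) {χ : HC.Chr (ZMod N)} {x : HL T.W ℂ X}
    (hx : HC.IsEigenvector T (toG X t N h) χ x) : IsEigen (T.W.map t) (χ.val 1) x := by
  have : Fact (1 < N) := ⟨hN⟩
  have h1 := hx (1 : ZMod N)
  have h2 : (toG X t N h).act (1 : ZMod N) = t := by
    change (t ^ (1 : ZMod N).val : End X) = t
    rw [ZMod.val_one, pow_one]
  rw [h2] at h1
  exact h1

theorem covering (hN : 1 < N) (h : t ^ N = 1)
    (hc : IsCyclicCovering (T.pq X) (allCycleClasses T.W X) (T.W.map t) N d a) :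
    HD.IsCovering T (toG X t N h) d a := by
  have : Fact (1 < N) := ⟨hN⟩
  refine ⟨⟨hc.nontrivial, fun x hx => ?_⟩, fun χ x hχ hx => ?_, ?_⟩
  · have h1 := hx (1 : ZMod N)
    have h2 : (toG X t N h).act (1 : ZMod N) = t := by
      change (t ^ (1 : ZMod N).val : End X) = t
      rw [ZMod.val_one, pow_one]
    rw [h2] at h1
    exact hc.invariants x h1
  · have h1 := eigen_of hN h hx
    have hz : (HC.Chr.val (G := ZMod N) χ 1) ^ N = 1 := by
      change (show AddChar (ZMod N) ℂ from χ) 1 ^ N = 1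
      rw [← val_pow, ZMod.natCast_self, AddChar.map_zero_eq_one]
    have hz' : HC.Chr.val (G := ZMod N) χ 1 ≠ 1 := by
      intro h2
      refine hχ fun g => ?_
      change (show AddChar (ZMod N) ℂ from χ) g = 1
      have h3 : (g : ZMod N) = ((ZMod.val (n := N) g : ℕ) : ZMod N) :=
        (ZMod.natCast_zmod_val (n := N) g).symm
      rw [h3, val_pow]
      have h4 : (show AddChar (ZMod N) ℂ from χ) 1 = 1 := h2
      rw [h4, one_pow]
    obtain ⟨h2, h3⟩ := hc.types _ hz hz' x h1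
    refine ⟨h2, ?_⟩
    refine Submodule.span_mono ?_ h3
    rintro y ⟨p, q, h4, h5⟩
    exact ⟨p, q, by simpa using h4, h5⟩
  · obtain ⟨z, hz, hz', hj⟩ := hc.extreme
    refine ⟨(AddChar.zmodChar N hz : AddChar (ZMod N) ℂ), fun h1 => hz' ?_, fun j h0 hja x => ?_⟩
    · have h2 : (AddChar.zmodChar N hz : AddChar (ZMod N) ℂ) 1 = 1 := h1 (1 : ZMod N)
      rwa [AddChar.zmodChar_apply, ZMod.val_one, pow_one] at h2
    · have hval : (AddChar.zmodChar N hz : AddChar (ZMod N) ℂ) 1 = z := by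
        rw [AddChar.zmodChar_apply, ZMod.val_one, pow_one]
      have hcard : (toG X t N h).order = N := ZMod.card N
      rw [hcard] at hja
      obtain ⟨h1, h2⟩ := hj j h0 hja x
      refine ⟨fun hx => ?_, fun hx => ?_⟩
      · have h3 := eigen_of hN h hx
        have h4 : HC.Chr.val (G := ZMod N)
            (HC.Chr.pow (G := ZMod N) (AddChar.zmodChar N hz : AddChar (ZMod N) ℂ) j) 1 = z ^ j := by
          change ((AddChar.zmodChar N hz : AddChar (ZMod N) ℂ) ^ j) 1 = z ^ j
          rw [AddChar.pow_apply, hval]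
        exact h1 (eigen_congr h4 h3)
      · have h3 := eigen_of hN h hx
        have h4 : HC.Chr.val (G := ZMod N) (HD.inverse (G := ZMod N)
            (HC.Chr.pow (G := ZMod N) (AddChar.zmodChar N hz : AddChar (ZMod N) ℂ) j)) 1 =
              (z ^ j)⁻¹ := by
          change ((AddChar.zmodChar N hz : AddChar (ZMod N) ℂ) ^ j)⁻¹ 1 = (z ^ j)⁻¹
          rw [AddChar.inv_apply', AddChar.pow_apply, hval]
        exact h2 (eigen_congr h4 h3)

end

/-- **The translation.** -/
theorem exists_family (T : AHS.HodgeTheory ops) {n : ℕ} (X : Fin (n + 1) → 𝒱.Obj)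
    (t : ∀ i, End (X i)) (N d a : Fin (n + 1) → ℕ) (M : ℤ) (b : ℕ)
    (h : AreCoverings T X t N d a M b) :
    ∃ A : HC.Fam 𝒱 n, prodOf n X = HC.product n A ∧ HD.IsAdmissible T A M b := by
  have h0 : ∀ i, NeZero (N i) := fun i => ⟨(h.prime i).ne_zero⟩
  let A : HC.Fam 𝒱 n := fun i => toG (X i) (t i) (N i) (h.power i)
  have hord : ∀ i, (A i).order = N i := fun i => ZMod.card (N i)
  refine ⟨A, prodOf_eq n A, Or.inl ⟨d, a, ⟨fun i => ?_, fun i => ?_, fun i i' hi h1 => ?_, h.two_le,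
    fun i => ?_, h.dim⟩⟩⟩
  · exact covering (h.prime i).one_lt (h.power i) (h.covering i)
  · rw [hord]; exact h.prime i
  · rw [hord, hord] at h1
    exact hi (h.ne i i' h1)
  · rw [hord]; exact h.large i

theorem isSmall_of {T : AHS.HodgeTheory ops} {M : ℤ} {b : ℕ} {Z : 𝒱.Obj} (N : ℕ)
    (h : IsSmall T M b Z) : HD.IsSmall T N M b Z := by
  rcases h with h | ⟨h, h'⟩
  · exact Or.inl h
  · exact Or.inr (Or.inr ⟨h, h'⟩)

end Pool.Agent.U222.AC
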