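import Pool.Agent.U222.AC.Fin
import Pool.Agent.U222.AC.Tr
import Pool.Agent.U222.AC.CDefs

/-!
# Conjugates of Hodge classes on products of coverings and arbitrary varieties: the theorem
-/

set_option autoImplicit false

open CategoryTheory AlgebraicGeometry

universe u

namespace Pool.Agent.U222.AC.Con

open Pool.Agent.H914 Pool.Agent.H914.VarClass Pool.Agent.H914.VarClass.Obj
  Pool.Agent.H914.WeilCohomology Pool.Agent.Y121 Pool.Agent.Y121.AHS Pool.Agent.U222.AC

variable {k : Type u} [Field k] {𝒱 : VarClass k} {ops : CycleOps 𝒱}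

theorem conj_fin (T T' : AHS.HodgeTheory ops) {L : Type} [Field L] [Algebra T.W.K L]
    [Algebra T'.W.K L] (C : AHS.Comparison T.W T'.W L) {n : ℕ} (X : Fin (n + 1) → 𝒱.Obj)
    (t : ∀ i, End (X i)) (N d a : Fin (n + 1) → ℕ) (M : ℤ) (b : ℕ) (hM : 0 < M)
    (h : AreCoverings T X t N d a M b) :
    HodgeAreConjugable C (prodOf n X) ∧
      ∀ Z : 𝒱.Obj, IsSmall T M b Z → Conclusions C (prodOf n X) Z := by
  obtain ⟨A, hA, hadm⟩ := exists_family T X t N d a M b h
  rw [hA]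
  obtain ⟨h1, h2⟩ := conj_main C A M b hM hadm (∏ i, (A i).order)
    (fun i => Finset.dvd_prod_of_mem _ (Finset.mem_univ i))
  refine ⟨h1, fun Z hZ => ?_⟩
  have h3 := h2 Z (isSmall_of _ hZ)
  refine ⟨fun j c hc => ?_, h3.iff, h3.curve, fun hd hl => h3.threefold hd hl⟩
  refine Submodule.span_mono ?_ (h3.classes j c hc)
  rintro x ⟨i, l, z, v, hz, hv, rfl⟩
  exact ⟨_, ⟨i, z, hz, rfl⟩, v, ⟨l, hv⟩, rfl⟩

end Pool.Agent.U222.AC.Con
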