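import Pool.Agent.Y121.AHS.Defs

/-!
# Coverings of large prime degrees and arbitrary varieties: definitions

In the generic definitions `V` is the cohomology ring `H(X, ℚ)` of a variety `X`, `Ext K ℂ V` is `H(X, ℂ)`, and
the subspaces `F p q` are the spaces `H^(p,q)(X)`.
-/

set_option autoImplicit false

open CategoryTheory AlgebraicGeometry

universe u

namespace Pool.Agent.U222.AC

open Pool.Agent.H914 Pool.Agent.H914.VarClass Pool.Agent.H914.VarClass.Obj
  Pool.Agent.H914.WeilCohomology Pool.Agent.Y121.AHS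

section generic

variable {K V V' V'' : Type} [Field K] [Algebra K ℂ] [Ring V] [Algebra K V] [Ring V'] [Algebra K V']
  [Ring V''] [Algebra K V'']

/-- The element `x` is a sum of elements of types `(p, q)` such that `p - q` has the property `P`. -/
def IsSum (F : ℤ → ℤ → Submodule ℂ (Ext K ℂ V)) (P : ℤ → Prop) (x : Ext K ℂ V) : Prop :=
  x ∈ Submodule.span ℂ {y | ∃ p q, P (p - q) ∧ y ∈ F p q}

/-- The element `x` of `V ⊗ ℂ` is an eigenvector of `f` (or zero) with the eigenvalue `z`. -/
def IsEigen (f : V →ₐ[K] V) (z : ℂ) (x : Ext K ℂ V) : Prop := extHom K ℂ f x = extSm K ℂ z x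

/-- The ring `V = H(X, ℚ)` with the automorphism `f` (the pull-back by an automorphism of order `N` of `X`)
is like the cohomology of a smooth projective model of the cyclic covering `w ^ N = l_1 ⋯ l_a` of the
projective space of dimension `d`, branched along `a` hyperplanes in general position and the
hyperplane at infinity (for `d = 1`: of the curve `y ^ N = f (x)`, where `f` has degree `a` and no multiple roots):

* `V` is not zero, and the invariant elements of `V` are linear combinations of elements of `alg` (the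
  classes of algebraic cycles);
* the eigenvectors with eigenvalues different from `1` are sums of elements of types `(p, q)` with
  `-d ≤ p - q ≤ d` (they are in degree `d`);
* there is a root of unity `z ≠ 1` of order `N` such that the eigenvectors with the eigenvalues `z ^ j`,
  `0 < j < N / a`, are of types `p - q ≥ d` (of type `(d, 0)`), and those with the eigenvalues `z ^ (-j)` of types
  `p - q ≤ -d`. -/
structure IsCyclicCovering (F : ℤ → ℤ → Submodule ℂ (Ext K ℂ V)) (alg : Set V) (f : V →ₐ[K] V)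
    (N d a : ℕ) : Prop where
  nontrivial : ∃ x : V, x ≠ 0
  invariants : ∀ x : V, f x = x → x ∈ Submodule.span K alg
  types : ∀ z : ℂ, z ^ N = 1 → z ≠ 1 → ∀ x, IsEigen f z x →
    IsSum F (fun r => -d ≤ r) x ∧ IsSum F (fun r => r ≤ d) x
  extreme : ∃ z : ℂ, z ^ N = 1 ∧ z ≠ 1 ∧ ∀ j : ℕ, 0 < j → j * a < N → ∀ x,
    (IsEigen f (z ^ j) x → IsSum F (fun r => d ≤ r) x) ∧
      (IsEigen f (z ^ j)⁻¹ x → IsSum F (fun r => r ≤ -d) x)

/-- For each `d` the sum of the dimensions of the spaces `F p q` with `p + q = d` and `q - p ≥ M` is at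
most `b`. -/
def HasFew (F : ℤ → ℤ → Submodule ℂ (Ext K ℂ V)) (M : ℤ) (b : ℕ) : Prop :=
  ∀ (d : ℤ) (S : Finset (ℤ × ℤ)), (∀ r ∈ S, r.1 + r.2 = d ∧ M ≤ r.2 - r.1) →
    ∑ r ∈ S, Module.finrank ℂ (F r.1 r.2) ≤ b

/-- All types `(p, q)` satisfy `0 ≤ p ≤ n` and `0 ≤ q ≤ n`. -/
def IsEffective (F : ℤ → ℤ → Submodule ℂ (Ext K ℂ V)) (n : ℕ) : Prop :=
  ∀ p q : ℤ, ¬ (0 ≤ p ∧ p ≤ n ∧ 0 ≤ q ∧ q ≤ n) → Module.finrank ℂ (F p q) = 0

/-- The products `f a * g b`, where `a` has the property `A` and `b` has the property `B`. -/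
def prods (f : V →ₐ[K] V'') (g : V' →ₐ[K] V'') (A : Set V) (B : Set V') : Set V'' :=
  {x | ∃ a ∈ A, ∃ b ∈ B, f a * g b = x}

/-- The element `x` is a linear combination of elements of `S`. -/
def IsComb (K : Type) {V : Type} [Field K] [Ring V] [Algebra K V] (S : Set V) (x : V) : Prop :=
  x ∈ Submodule.span K S

end generic

variable {k : Type u} [Field k] {𝒱 : VarClass k} {ops : CycleOps 𝒱}

/-- The product `X_0 × (X_1 × (⋯ × X_n))`. -/
noncomputable def prodOf : ∀ (n : ℕ), (Fin (n + 1) → 𝒱.Obj) → 𝒱.Obj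
  | 0, X => X 0
  | n + 1, X => (X 0).prod (prodOf n fun i => X i.succ)

/-- The classes of the algebraic cycles of codimension `j` on `X`. -/
def cycleClasses (W : WeilCohomology.{u, 0} ops) (X : 𝒱.Obj) (j : ℕ) : Set (W.H X) :=
  {c | ∃ z, X.IsCyc j z ∧ W.cl X z = c}

/-- The classes of the algebraic cycles on `X`. -/
def allCycleClasses (W : WeilCohomology.{u, 0} ops) (X : 𝒱.Obj) : Set (W.H X) :=
  {c | ∃ j, c ∈ cycleClasses W X j}

/-- The varieties `X_i` with automorphisms `t_i`, `t_i ^ N_i = 1`, are cyclic coverings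
`w ^ N_i = l_1 ⋯ l_(a_i)` of the projective spaces of dimensions `d_i ≥ M`, the `N_i` are different prime
numbers, `a_i ≥ 2` and `N_i > a_i ^ 2 b + a_i`. -/
structure AreCoverings (T : HodgeTheory ops) {n : ℕ} (X : Fin (n + 1) → 𝒱.Obj)
    (t : ∀ i, End (X i)) (N d a : Fin (n + 1) → ℕ) (M : ℤ) (b : ℕ) : Prop where
  power : ∀ i, t i ^ N i = 1
  covering : ∀ i, IsCyclicCovering (T.pq (X i)) (allCycleClasses T.W (X i)) (T.W.map (t i))
    (N i) (d i) (a i)
  prime : ∀ i, (N i).Prime
  ne : ∀ i j, N i = N j → i = j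
  two_le : ∀ i, 2 ≤ a i
  large : ∀ i, a i ^ 2 * b + a i < N i
  dim : ∀ i, M ≤ d i

/-- The condition on `Z`: the sums of the Hodge numbers `h^(p,q)` with `q - p ≥ M` are at most `b` in all
degrees, or the dimension of `Z` is smaller than `M` (and the types are effective). -/
def IsSmall (T : HodgeTheory ops) (M : ℤ) (b : ℕ) (Z : 𝒱.Obj) : Prop :=
  HasFew (T.pq Z) M b ∨ (IsEffective (T.pq Z) Z.dim ∧ Z.dim < M)

/-- The theorem of Lefschetz on the classes of type `(1, 1)` for `Z`: the Hodge classes of degree two are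
classes of divisors. -/
def HasLefschetz (T : HodgeTheory ops) (Z : 𝒱.Obj) : Prop :=
  ∀ v, IsHodge T Z 1 v → v ∈ cycleClasses T.W Z 1

end Pool.Agent.U222.AC
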