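import Pool.Agent.U222.HD.Defs3
import Pool.Agent.U231.HF.EmbDefs

/-!
# Conjugates of Hodge classes on products with arbitrary varieties: definitions
-/

set_option autoImplicit false

open CategoryTheory AlgebraicGeometry

universe u

namespace Pool.Agent.U222.AC

open Pool.Agent.H914 Pool.Agent.H914.VarClass Pool.Agent.H914.VarClass.Obj
  Pool.Agent.H914.WeilCohomology Pool.Agent.Y121.AHS Pool.Agent.U231.HF
open Pool.Agent.U222.HC (InSpan)
open Pool.Agent.U222.HD (HodgeConjectureIn)

variable {k : Type u} [Field k] {𝒱 : VarClass k} {ops : CycleOps 𝒱}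

/-- The products `a × b` of the class `a` of an algebraic cycle on `X` and of a class `b` on `Z` with the
property `P j` for some `j`. -/
def productsWith (W : WeilCohomology.{u, 0} ops) (X Z : 𝒱.Obj) (P : ℕ → W.H Z → Prop) :
    Set (W.H (X.prod Z)) :=
  {x | ∃ (i j : ℕ) (a : X.Cycles) (b : W.H Z), X.IsCyc i a ∧ P j b ∧
    W.map (fst X Z) (W.cl X a) * W.map (snd X Z) b = x}

/-- Every Hodge class on `Y` is conjugable with respect to the comparison isomorphism `C`. -/
def HodgeAreConjugable {T T' : HodgeTheory ops} {L : Type} [Field L] [Algebra T.W.K L]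
    [Algebra T'.W.K L] (C : Comparison T.W T'.W L) (Y : 𝒱.Obj) : Prop :=
  ∀ j v, IsHodge T Y j v → IsConjugable C Y j v

/-- The conclusions for the product of `X` and `Z` and one comparison isomorphism:

* the conjugable classes on `X × Z` are linear combinations of products of classes of algebraic cycles on
  `X` and of conjugable classes on `Z`;
* all Hodge classes on `X × Z` are conjugable if and only if all Hodge classes on `Z` are;
* they are conjugable if `Z` is a curve, and, if the theorem of Lefschetz on the classes of type `(1, 1)`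
  holds for `Z`, also if `Z` is a surface or a threefold. -/
structure ConjugateConclusions {T T' : HodgeTheory ops} {L : Type} [Field L] [Algebra T.W.K L]
    [Algebra T'.W.K L] (C : Comparison T.W T'.W L) (X Z : 𝒱.Obj) : Prop where
  classes : ∀ j c, IsConjugable C (X.prod Z) j c →
    InSpan T.W.K (productsWith T.W X Z (IsConjugable C Z)) c
  iff : HodgeAreConjugable C (X.prod Z) ↔ HodgeAreConjugable C Z
  curve : Z.dim ≤ 1 → HodgeAreConjugable C (X.prod Z)
  threefold : Z.dim ≤ 3 → HodgeConjectureIn T Z 1 → HodgeAreConjugable C (X.prod Z)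

end Pool.Agent.U222.AC
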