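import Pool.Agent.Y121.AHS.CDefs

/-!
# Fullness of the Hodge realization on products of coverings and arbitrary varieties: definitions

In the generic definitions `V` is the cohomology ring `H(X, ℚ)` of a variety `X`, `Ext K ℂ V` is `H(X, ℂ)`, and
the subspaces `F p q` are the spaces `H^(p,q)(X)`.
-/

set_option autoImplicit false

open CategoryTheory AlgebraicGeometry

universe u

namespace Pool.Agent.U222.AC.Ful

open Pool.Agent.H914 Pool.Agent.H914.VarClass Pool.Agent.H914.VarClass.Obj
  Pool.Agent.H914.WeilCohomology Pool.Agent.Y121.AHS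

section generic

variable {K V V' W : Type} [Field K] [Algebra K ℂ] [Ring V] [Algebra K V] [Ring V'] [Algebra K V']
  [Ring W] [Algebra K W]

/-- The element `x` is a sum of elements of types `(p, q)` such that `p - q` has the property `P`. -/
def IsSum (F : ℤ → ℤ → Submodule ℂ (Ext K ℂ V)) (P : ℤ → Prop) (x : Ext K ℂ V) : Prop :=
  x ∈ Submodule.span ℂ {y | ∃ p q, P (p - q) ∧ y ∈ F p q}

/-- The element `x` of `V ⊗ ℂ` is an eigenvector of `f` (or zero) with the eigenvalue `z`. -/
def IsEigen (f : V →ₐ[K] V) (z : ℂ) (x : Ext K ℂ V) : Prop := extHom K ℂ f x = extSm K ℂ z x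

/-- The ring `V = H(X, ℚ)` with the automorphism `f` (the pull-back by an automorphism of order `N` of `X`)
is like the cohomology of a smooth projective model of the cyclic covering `w ^ N = l_1 ⋯ l_a` of the
projective space of dimension `d`, branched along `a` hyperplanes in general position and the
hyperplane at infinity (for `d = 1`: of the curve `y ^ N = f (x)`, where `f` has degree `a` and no multiple roots):

* `V` is not zero, and the invariant elements of `V` are linear combinations of elements of `alg` (the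
  classes of algebraic cycles);
* the eigenvectors with eigenvalues different from `1` are sums of elements of types `(p, q)` with
  `-d ≤ p - q ≤ d` (they are in degree `d`);
* there is a root of unity `z ≠ 1` of order `N` such that the eigenvectors with the eigenvalues `z ^ j`,
  `0 < j < N / a`, are of types `p - q ≥ d` (of type `(d, 0)`), and those with the eigenvalues `z ^ (-j)` of types
  `p - q ≤ -d`. -/
structure IsCyclicCovering (F : ℤ → ℤ → Submodule ℂ (Ext K ℂ V)) (alg : Set V) (f : V →ₐ[K] V)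
    (N d a : ℕ) : Prop where
  nontrivial : ∃ x : V, x ≠ 0
  invariants : ∀ x : V, f x = x → x ∈ Submodule.span K alg
  types : ∀ z : ℂ, z ^ N = 1 → z ≠ 1 → ∀ x, IsEigen f z x →
    IsSum F (fun r => -d ≤ r) x ∧ IsSum F (fun r => r ≤ d) x
  extreme : ∃ z : ℂ, z ^ N = 1 ∧ z ≠ 1 ∧ ∀ j : ℕ, 0 < j → j * a < N → ∀ x,
    (IsEigen f (z ^ j) x → IsSum F (fun r => d ≤ r) x) ∧
      (IsEigen f (z ^ j)⁻¹ x → IsSum F (fun r => r ≤ -d) x)

/-- For each `d` the sum of the dimensions of the spaces `F p q` with `p + q = d` and `q - p ≥ M` is at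
most `b`. -/
def HasFew (F : ℤ → ℤ → Submodule ℂ (Ext K ℂ V)) (M : ℤ) (b : ℕ) : Prop :=
  ∀ (d : ℤ) (S : Finset (ℤ × ℤ)), (∀ r ∈ S, r.1 + r.2 = d ∧ M ≤ r.2 - r.1) →
    ∑ r ∈ S, Module.finrank ℂ (F r.1 r.2) ≤ b

/-- Every morphism of Hodge structures `f : V → V'(j - d)`, i.e. every linear map which maps (with
complex coefficients) the elements of type `(p, q)` to elements of type `(p + j - d, q + j - d)`, is of
the form `x ↦ push (c · pull x)` with an element `c` with the property `P j`. -/
def AllGivenBy (F : ℤ → ℤ → Submodule ℂ (Ext K ℂ V)) (F' : ℤ → ℤ → Submodule ℂ (Ext K ℂ V'))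
    (d : ℕ) (pull : V →ₐ[K] W) (push : W →ₗ[K] V') (P : ℕ → W → Prop) : Prop :=
  ∀ (j : ℕ) (f : V →ₗ[K] V'),
    (∀ p q : ℤ, ∀ x ∈ F p q, extMap K ℂ f x ∈ F' (p + (j - d)) (q + (j - d))) →
    ∃ c, P j c ∧ ∀ x, f x = push (c * pull x)

end generic

variable {k : Type u} [Field k] {𝒱 : VarClass k} {ops : CycleOps 𝒱}

/-- The product `X_0 × (X_1 × (⋯ × X_n))`. -/
noncomputable def prodOf : ∀ (n : ℕ), (Fin (n + 1) → 𝒱.Obj) → 𝒱.Obj
  | 0, X => X 0
  | n + 1, X => (X 0).prod (prodOf n fun i => X i.succ)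

/-- The classes of the algebraic cycles of codimension `j` on `X`. -/
def cycleClasses (W : WeilCohomology.{u, 0} ops) (X : 𝒱.Obj) (j : ℕ) : Set (W.H X) :=
  {c | ∃ z, X.IsCyc j z ∧ W.cl X z = c}

/-- The varieties `X_i` with automorphisms `t_i`, `t_i ^ N_i = 1`, are cyclic coverings
`w ^ N_i = l_1 ⋯ l_(a_i)` of the projective spaces of dimensions `d_i ≥ M`, the `N_i` are different prime
numbers, `a_i ≥ 2` and `N_i > a_i ^ 2 b + a_i`. -/
structure AreCoverings (T : HodgeTheory ops) {n : ℕ} (X : Fin (n + 1) → 𝒱.Obj)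
    (t : ∀ i, End (X i)) (N d a : Fin (n + 1) → ℕ) (M : ℤ) (b : ℕ) : Prop where
  power : ∀ i, t i ^ N i = 1
  covering : ∀ i, IsCyclicCovering (T.pq (X i)) {c | ∃ j, c ∈ cycleClasses T.W (X i) j}
    (T.W.map (t i)) (N i) (d i) (a i)
  prime : ∀ i, (N i).Prime
  ne : ∀ i j, N i = N j → i = j
  two_le : ∀ i, 2 ≤ a i
  large : ∀ i, a i ^ 2 * b + a i < N i
  dim : ∀ i, M ≤ d i

/-- All morphisms of Hodge structures from `H(V)` to the Tate twists of `H(V')` are given by absolutely
Hodge classes `c` on `V × V'`, by the formula `x ↦ q_* (c · p^* x)`. -/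
def IsFull {T : HodgeTheory ops} (D : Full.Conjugates T) (V V' : 𝒱.Obj) : Prop :=
  AllGivenBy (K := T.W.K) (V := T.W.H V) (V' := T.W.H V') (T.pq V) (T.pq V') V.dim
    (T.W.map (fst V V')) (T.W.push (snd V V')) (Full.IsAbsHodge D (V.prod V'))

/-- The theorem of Lefschetz on the classes of type `(1, 1)` for `Y`: the Hodge classes of degree two are
classes of divisors. -/
def HasLefschetz (T : HodgeTheory ops) (Y : 𝒱.Obj) : Prop :=
  ∀ v, IsHodge T Y 1 v → v ∈ cycleClasses T.W Y 1

/-- Let `V` and `V'` be varieties with `V × V' = X × Z × Z'` (for instance `V = X × Z` and `V' = Z'`). Then the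
morphisms of Hodge structures from `H(V)` to the twists of `H(V')` are given by absolutely Hodge
classes if and only if the morphisms from `H(Z)` to the twists of `H(Z')` are; and this is so if
`dim (Z × Z') ≤ 3`, by the theorem of Lefschetz on the classes of type `(1, 1)` for `Z × Z'`. -/
def Conclusion {T : HodgeTheory ops} (D : Full.Conjugates T) (X Z Z' V V' : 𝒱.Obj) : Prop :=
  Nonempty (V.prod V' ≅ X.prod (Z.prod Z')) → (IsFull D V V' ↔ IsFull D Z Z') ∧
    ((Z.prod Z').dim ≤ 3 → HasLefschetz T (Z.prod Z') → IsFull D V V')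

end Pool.Agent.U222.AC.Ful
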