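import Pool.Agent.U222.AC.Defs
import Pool.Agent.U231.HF.MapDefs
import Pool.Agent.Y121.AHS.CDefs

/-!
# Fullness of the Hodge realization on products with arbitrary varieties: auxiliary definitions
-/

set_option autoImplicit false

open CategoryTheory AlgebraicGeometry

universe u

namespace Pool.Agent.U222.AC

open Pool.Agent.H914 Pool.Agent.H914.VarClass Pool.Agent.H914.VarClass.Obj
  Pool.Agent.H914.WeilCohomology Pool.Agent.Y121.AHS
open Pool.Agent.U231.HF (AllGivenBy)
open Pool.Agent.U222.HD (HodgeConjectureIn)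

variable {k : Type u} [Field k] {𝒱 : VarClass k} {ops : CycleOps 𝒱} {T : HodgeTheory ops}

/-- all morphisms are given by absolutely Hodge classes -/
def IsFull (D : Full.Conjugates T) (V V' : 𝒱.Obj) : Prop :=
  AllGivenBy (K := T.W.K) (V := T.W.H V) (V' := T.W.H V') (T.pq V) (T.pq V') V.dim
    (T.W.map (fst V V')) (T.W.push (snd V V')) (Full.IsAbsHodge D (V.prod V'))

/-- All Hodge classes on `Y` are absolutely Hodge. -/
def HodgeAreAbsolute (D : Full.Conjugates T) (Y : 𝒱.Obj) : Prop :=
  ∀ j v, IsHodge T Y j v → Full.IsAbsHodge D Y j v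

/-- The product of `V` and `V'` is isomorphic to the product of `X`, `Z` and `Z'`. -/
def IsDistributed (X Z Z' V V' : 𝒱.Obj) : Prop := Nonempty (V.prod V' ≅ X.prod (Z.prod Z'))

/-- conclusions for one product -/
structure AbsoluteConclusions (D : Full.Conjugates T) (X Y : 𝒱.Obj) : Prop where
  classes : ∀ j c, Full.IsAbsHodge D (X.prod Y) j c →
    Pool.Agent.U222.HC.InSpan T.W.K (productsWith T.W X Y (Full.IsAbsHodge D Y)) c
  iff : HodgeAreAbsolute D (X.prod Y) ↔ HodgeAreAbsolute D Y
  curve : Y.dim ≤ 1 → HodgeAreAbsolute D (X.prod Y)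
  threefold : Y.dim ≤ 3 → HodgeConjectureIn T Y 1 → HodgeAreAbsolute D (X.prod Y)

/-- conclusions for morphisms -/
structure FullConclusions (D : Full.Conjugates T) (Z Z' V V' : 𝒱.Obj) : Prop where
  iff : IsFull D V V' ↔ IsFull D Z Z'
  curve : (Z.prod Z').dim ≤ 1 → IsFull D V V'
  threefold : (Z.prod Z').dim ≤ 3 → HodgeConjectureIn T (Z.prod Z') 1 → IsFull D V V'

end Pool.Agent.U222.AC
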