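import Pool.Agent.U222.AC.Fin
import Pool.Agent.U222.AC.FDefs0
import Pool.Agent.U231.HF.MorFin

/-!
# Fullness of the Hodge realization on products of coverings with arbitrary varieties
-/

set_option autoImplicit false

open CategoryTheory AlgebraicGeometry

universe u

namespace Pool.Agent.U222.AC

open Pool.Agent.H914 Pool.Agent.H914.VarClass Pool.Agent.H914.VarClass.Obj
  Pool.Agent.H914.WeilCohomology Pool.Agent.Y121 Pool.Agent.Y121.AHS Pool.Agent.U231.HF
  Pool.Agent.Y133.Half Pool.Agent.Y129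
open Pool.Agent.U222.HC (Fam product)
open Pool.Agent.U222.HD (HodgeConjectureIn IsAdmissible IsSmall HodgeConjecture Conclusions main3)

variable {k : Type u} [Field k] {𝒱 : VarClass k} {ops : CycleOps 𝒱} {T : AHS.HodgeTheory ops}
  (D : AHS.Full.Conjugates T)

theorem abs_of_hodge {Y : 𝒱.Obj} (h : HodgeConjecture T Y) : HodgeAreAbsolute D Y := by
  intro j v hv
  obtain ⟨z, hz, rfl⟩ := h j v hv
  exact Full.isAbsHodge_iff.1 ((AH.absPred (Full.toD D)).cl hz)

theorem full_iff_abs (V V' : 𝒱.Obj) : IsFull D V V' ↔ HodgeAreAbsolute D (V.prod V') :=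
  (allGiven_iff D V V').trans (full_iff_hodge D V V')

theorem abs_main {n : ℕ} (A : Fam 𝒱 n) (M : ℤ) (b : ℕ) (hM : 0 < M)
    (hA : IsAdmissible T A M b) (N : ℕ) (hN : ∀ i, (A i).order ∣ N) (Y : 𝒱.Obj)
    (hY : IsSmall T N M b Y) : AbsoluteConclusions D (product n A) Y := by
  obtain ⟨h1, h2⟩ := main3 T A M b hM hA N hN
  have h3 := h2 Y hY
  have hone := one_ne T A M b hA
  refine ⟨fun j c hc => ?_, ?_, fun hd => abs_of_hodge D (h3.curve hd),
    fun hd hl => abs_of_hodge D (h3.surface hd hl)⟩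
  · have h4 := pred_span (AH.absPred (Full.toD D))
      (fun Y j c hc => (Full.isAbsHodge_iff.1 hc).1) (fun j c hc => h1 j c hc)
      (fun w c hc => h3.products w c hc) (Full.isAbsHodge_iff.2 hc)
    refine Submodule.span_mono ?_ h4
    rintro x ⟨i, l, a, v, ha, hv, rfl⟩
    exact ⟨i, l, a, v, ha, Full.isAbsHodge_iff.1 hv, rfl⟩
  · have h4 := pred_iff (X := product n A) (Z := Y) (AH.absPred (Full.toD D)) hone
      (fun w c hc => h3.products w c hc)
    exact ⟨fun h j v hv => Full.isAbsHodge_iff.1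
        (h4.1 (fun j c hc => Full.isAbsHodge_iff.2 (h j c hc)) j v hv),
      fun h j v hv => Full.isAbsHodge_iff.1
        (h4.2 (fun j c hc => Full.isAbsHodge_iff.2 (h j c hc)) j v hv)⟩

theorem full_main {n : ℕ} (A : Fam 𝒱 n) (M : ℤ) (b : ℕ) (hM : 0 < M)
    (hA : IsAdmissible T A M b) (N : ℕ) (hN : ∀ i, (A i).order ∣ N) (Z Z' V V' : 𝒱.Obj)
    (hV : IsDistributed (product n A) Z Z' V V') (hZ : IsSmall T N M b (Z.prod Z')) :
    FullConclusions D Z Z' V V' := by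
  have h1 := abs_main D A M b hM hA N hN (Z.prod Z') hZ
  obtain ⟨e⟩ := hV
  have h2 : IsFull D V V' ↔ HodgeAreAbsolute D ((product n A).prod (Z.prod Z')) :=
    (full_iff_abs D V V').trans ⟨hodge_abs_iso D e, hodge_abs_iso D e.symm⟩
  exact ⟨h2.trans (h1.iff.trans (full_iff_abs D Z Z').symm), fun hd => h2.2 (h1.curve hd),
    fun hd hl => h2.2 (h1.threefold hd hl)⟩

/-- association -/
noncomputable def assoc (X Z Z' : 𝒱.Obj) : (X.prod Z).prod Z' ≅ X.prod (Z.prod Z') where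
  hom := Obj.lift (fst _ _ ≫ fst _ _) (Obj.lift (fst _ _ ≫ snd _ _) (snd _ _))
  inv := Obj.lift (Obj.lift (fst _ _) (snd _ _ ≫ fst _ _)) (snd _ _ ≫ snd _ _)
  hom_inv_id := by
    refine prod_ext (prod_ext ?_ ?_) ?_ <;> simp
  inv_hom_id := by
    refine prod_ext ?_ (prod_ext ?_ ?_) <;> simp

/-- interchange -/
noncomputable def assoc' (X Z Z' : 𝒱.Obj) : Z.prod (X.prod Z') ≅ X.prod (Z.prod Z') where
  hom := Obj.lift (snd _ _ ≫ fst _ _) (Obj.lift (fst _ _) (snd _ _ ≫ snd _ _))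
  inv := Obj.lift (snd _ _ ≫ fst _ _) (Obj.lift (fst _ _) (snd _ _ ≫ snd _ _))
  hom_inv_id := by
    refine prod_ext ?_ (prod_ext ?_ ?_) <;> simp
  inv_hom_id := by
    refine prod_ext ?_ (prod_ext ?_ ?_) <;> simp

theorem dist_left (X Z Z' : 𝒱.Obj) : IsDistributed X Z Z' (X.prod Z) Z' := ⟨assoc X Z Z'⟩

theorem dist_right (X Z Z' : 𝒱.Obj) : IsDistributed X Z Z' Z (X.prod Z') := ⟨assoc' X Z Z'⟩

end Pool.Agent.U222.AC
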