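import Pool.Agent.U222.AC.FFin
import Pool.Agent.U222.AC.Tr
import Pool.Agent.U222.AC.FDefs

/-!
# Fullness of the Hodge realization on products of coverings and arbitrary varieties: the theorem
-/

set_option autoImplicit false

open CategoryTheory AlgebraicGeometry

universe u

namespace Pool.Agent.U222.AC.Ful

open Pool.Agent.H914 Pool.Agent.H914.VarClass Pool.Agent.H914.VarClass.Obj
  Pool.Agent.H914.WeilCohomology Pool.Agent.Y121 Pool.Agent.Y121.AHS

variable {k : Type u} [Field k] {𝒱 : VarClass k} {ops : CycleOps 𝒱}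

theorem prodOf_eq : ∀ (n : ℕ) (X : Fin (n + 1) → 𝒱.Obj), prodOf n X = AC.prodOf n X
  | 0, _ => rfl
  | n + 1, X => by
    have h1 := prodOf_eq n (fun i => X i.succ)
    change (X 0).prod (prodOf n fun i => X i.succ) = (X 0).prod (AC.prodOf n fun i => X i.succ)
    rw [h1]

theorem toCov {T : AHS.HodgeTheory ops} {n : ℕ} {X : Fin (n + 1) → 𝒱.Obj} {t : ∀ i, End (X i)}
    {N d a : Fin (n + 1) → ℕ} {M : ℤ} {b : ℕ} (h : AreCoverings T X t N d a M b) :
    AC.AreCoverings T X t N d a M b :=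
  ⟨h.power, fun i => ⟨(h.covering i).nontrivial, (h.covering i).invariants, (h.covering i).types,
    (h.covering i).extreme⟩, h.prime, h.ne, h.two_le, h.large, h.dim⟩

theorem full_fin (T : AHS.HodgeTheory ops) (D : AHS.Full.Conjugates T) {n : ℕ}
    (X : Fin (n + 1) → 𝒱.Obj) (t : ∀ i, End (X i)) (N d a : Fin (n + 1) → ℕ) (M : ℤ) (b : ℕ)
    (hM : 0 < M) (h : AreCoverings T X t N d a M b) (Z Z' V V' : 𝒱.Obj)
    (hZ : HasFew (T.pq (Z.prod Z')) M b) : Conclusion D (prodOf n X) Z Z' V V' := by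
  obtain ⟨A, hA, hadm⟩ := exists_family T X t N d a M b (toCov h)
  rw [prodOf_eq, hA]
  have hN : ∀ i, (A i).order ∣ ∏ i, (A i).order :=
    fun i => Finset.dvd_prod_of_mem _ (Finset.mem_univ i)
  intro hV
  have h3 := full_main D A M b hM hadm _ hN Z Z' V V' hV (isSmall_of _ (Or.inl hZ))
  exact ⟨h3.iff, fun hd hl => h3.threefold hd hl⟩

end Pool.Agent.U222.AC.Ful
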