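import Pool.Agent.U222.AC.Main

/-!
# Conjugates of Hodge classes on products of coverings with arbitrary varieties
-/

set_option autoImplicit false

open CategoryTheory AlgebraicGeometry

universe u

namespace Pool.Agent.U222.AC

open Pool.Agent.H914 Pool.Agent.H914.VarClass Pool.Agent.H914.VarClass.Obj
  Pool.Agent.H914.WeilCohomology Pool.Agent.Y121 Pool.Agent.Y121.AHS Pool.Agent.U231.HF
  Pool.Agent.Y133.Half
open Pool.Agent.U222.HC (Fam product I.one_product)
open Pool.Agent.U222.HD (HodgeConjectureIn IsAdmissible IsSmall HodgeConjecture Conclusions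
  IsSystem IsSeparated HasLargePrimes exists_system isSystem_int main3)

variable {k : Type u} [Field k] {𝒱 : VarClass k} {ops : CycleOps 𝒱}

theorem one_ne (T : AHS.HodgeTheory ops) {n : ℕ} (A : Fam 𝒱 n) (M : ℤ) (b : ℕ)
    (hA : IsAdmissible T A M b) : (1 : T.W.H (product n A)) ≠ 0 := by
  obtain ⟨m, hm, hE⟩ : ∃ m, IsSystem T A m ∧ (IsSeparated A m M b ∨ HasLargePrimes A m M b) := by
    rcases hA with ⟨d, a, h⟩ | ⟨m, h, hE⟩
    · obtain ⟨m, h1, h2⟩ := exists_system T A M b h
      exact ⟨m, h1, Or.inr h2⟩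
    · exact ⟨m, ⟨fun i => (h.1 i).nontrivial, fun i => (h.1 i).invariants, h.2⟩, hE⟩
  exact HC.I.one_product T A (isSystem_int T hm).nontrivial

section

variable {T T' : AHS.HodgeTheory ops} {L : Type} [Field L] [Algebra T.W.K L] [Algebra T'.W.K L]
  (C : AHS.Comparison T.W T'.W L)

theorem conj_of_hodge {Y : 𝒱.Obj} (h : HodgeConjecture T Y) : HodgeAreConjugable C Y := by
  intro j v hv
  obtain ⟨z, hz, rfl⟩ := h j v hv
  exact (isBoth_iff C).1
    ((bothPred (T := toH T) (T' := toH T') (cmpRefl (baseW T.W L)) (toC C)).cl hz)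

theorem conj_main {n : ℕ} (A : Fam 𝒱 n) (M : ℤ) (b : ℕ) (hM : 0 < M)
    (hA : IsAdmissible T A M b) (N : ℕ) (hN : ∀ i, (A i).order ∣ N) :
    HodgeAreConjugable C (product n A) ∧
      ∀ Z : 𝒱.Obj, IsSmall T N M b Z → ConjugateConclusions C (product n A) Z := by
  obtain ⟨h1, h2⟩ := main3 T A M b hM hA N hN
  refine ⟨conj_of_hodge C h1, fun Z hZ => ?_⟩
  have h3 := h2 Z hZ
  have hone := one_ne T A M b hA
  refine ⟨fun j c hc => ?_, ?_, fun hd => conj_of_hodge C (h3.curve hd),
    fun hd hl => conj_of_hodge C (h3.surface hd hl)⟩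
  · have h4 := pred_span (bothPred (T := toH T) (T' := toH T') (cmpRefl (baseW T.W L)) (toC C))
      (fun Y j c hc => hc.1) (fun j c hc => h1 j c hc) (fun w c hc => h3.products w c hc)
      ((isBoth_iff C).2 hc)
    refine Submodule.span_mono ?_ h4
    rintro x ⟨i, l, a, v, ha, hv, rfl⟩
    exact ⟨i, l, a, v, ha, (isBoth_iff C).1 hv, rfl⟩
  · have h4 := pred_iff (X := product n A) (Z := Z)
      (bothPred (T := toH T) (T' := toH T') (cmpRefl (baseW T.W L)) (toC C)) hone
      (fun w c hc => h3.products w c hc)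
    exact ⟨fun h j v hv => (isBoth_iff C).1 (h4.1 (fun j c hc => (isBoth_iff C).2 (h j c hc)) j v hv),
      fun h j v hv => (isBoth_iff C).1 (h4.2 (fun j c hc => (isBoth_iff C).2 (h j c hc)) j v hv)⟩

end

end Pool.Agent.U222.AC
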