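import Pool.Agent.U222.HD.Cov
import Pool.Agent.U222.AC.Defs
import Pool.Agent.U231.HF.Emb
import Pool.Agent.Y121.AH.HR

/-!
# Conjugates of Hodge classes on products with arbitrary varieties
-/

set_option autoImplicit false

open CategoryTheory AlgebraicGeometry TensorProduct Module

universe u

namespace Pool.Agent.U222.AC

open Pool.Agent.H914 Pool.Agent.H914.VarClass Pool.Agent.H914.VarClass.Obj
  Pool.Agent.H914.WeilCohomology Pool.Agent.Y121 Pool.Agent.Y121.AHS Pool.Agent.U231.HF
  Pool.Agent.Y133.Half Pool.Agent.Y129 Pool.Agent.W536.RR Pool.Agent.H281R3.HT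
open Pool.Agent.U222.HD (HodgeConjectureIn productClasses)

variable {k : Type u} [Field k] {𝒱 : VarClass k} {ops : CycleOps 𝒱} {T : AHS.HodgeTheory ops}
  {X Z : 𝒱.Obj}

/-- all Hodge classes on the product are sums of products -/
def HasSums (T : AHS.HodgeTheory ops) (X Z : 𝒱.Obj) : Prop :=
  ∀ w c, AHS.IsHodge T (X.prod Z) w c → HC.InSpan T.W.K (productClasses T X Z w) c

theorem pred_iff (Q : ClassPred T.W) (hone : (1 : T.W.H X) ≠ 0) (hS : HasSums T X Z) :
    (∀ j c, AHS.IsHodge T (X.prod Z) j c → Q.P (X.prod Z) j c) ↔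
      ∀ j c, AHS.IsHodge T Z j c → Q.P Z j c := by
  constructor
  · intro h j b hb
    obtain ⟨y, hy, hdeg⟩ := HC.I.exists_point T hone
    have h1 : Q.P (X.prod Z) j (T.W.map (snd X Z) b) := h j _ ((AH.hodgePred (toH T)).map _ hb)
    have h2 := Q.mul (Q.map (fst X Z) (Q.cl hy)) h1
    have h3 := Q.push (snd X Z) (l := j) (by rw [dim_prod]; ring) h2
    rw [HC.I.push_snd] at h3
    have h4 := Q.smul (T.W.tr X (T.W.cl X y))⁻¹ h3
    rwa [smul_smul, inv_mul_cancel₀ hdeg, one_smul] at h4
  · intro h j c hc
    have h1 : c ∈ Submodule.span T.W.K (productClasses T X Z j) := hS j c hc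
    induction h1 using Submodule.span_induction with
    | mem x hx =>
      obtain ⟨i, l, a, b, rfl, ha, hb, rfl⟩ := hx
      exact Q.mul (Q.map (fst X Z) (Q.cl ha)) (Q.map (snd X Z) (h l b hb))
    | zero => exact Q.zero
    | add x y hx hy h1 h2 =>
      have e1 : AHS.IsHodge T (X.prod Z) j x ∧ AHS.IsHodge T (X.prod Z) j y := by
        have e2 : ∀ x ∈ Submodule.span T.W.K (productClasses T X Z j),
            AHS.IsHodge T (X.prod Z) j x := by
          intro x hx
          induction hx using Submodule.span_induction with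
          | mem x hx =>
            obtain ⟨i, l, a, b, rfl, ha, hb, rfl⟩ := hx
            exact (AH.hodgePred (toH T)).mul ((AH.hodgePred (toH T)).map (fst X Z)
              ((AH.hodgePred (toH T)).cl ha)) ((AH.hodgePred (toH T)).map (snd X Z) hb)
          | zero => exact (AH.hodgePred (toH T)).zero
          | add x y _ _ h1 h2 => exact (AH.hodgePred (toH T)).add h1 h2
          | smul a x _ h1 => exact (AH.hodgePred (toH T)).smul a h1
        exact ⟨e2 x hx, e2 y hy⟩
      exact Q.add (h1 e1.1) (h2 e1.2)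
    | smul a x hx h1 =>
      have e2 : ∀ x ∈ Submodule.span T.W.K (productClasses T X Z j),
          AHS.IsHodge T (X.prod Z) j x := by
        intro x hx
        induction hx using Submodule.span_induction with
        | mem x hx =>
          obtain ⟨i, l, a, b, rfl, ha, hb, rfl⟩ := hx
          exact (AH.hodgePred (toH T)).mul ((AH.hodgePred (toH T)).map (fst X Z)
            ((AH.hodgePred (toH T)).cl ha)) ((AH.hodgePred (toH T)).map (snd X Z) hb)
        | zero => exact (AH.hodgePred (toH T)).zero
        | add x y _ _ h1 h2 => exact (AH.hodgePred (toH T)).add h1 h2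
        | smul a x _ h1 => exact (AH.hodgePred (toH T)).smul a h1
      exact Q.smul a (h1 (e2 x hx))

/-- the classes on the product -/
theorem pred_span (Q : ClassPred T.W) (hQ : ∀ Y j c, Q.P Y j c → AHS.IsHodge T Y j c)
    (hX : ∀ j c, AHS.IsHodge T X j c → ∃ z, X.IsCyc j z ∧ T.W.cl X z = c) (hS : HasSums T X Z)
    {w : ℕ} {c : T.W.H (X.prod Z)} (hc : Q.P (X.prod Z) w c) :
    HC.InSpan T.W.K (productsWith T.W X Z (Q.P Z)) c := by
  classical
  let A : Submodule T.W.K (T.W.H X) := algSpan T.W X
  have hA : A = (AH.hodgeSys (toH T)).C X := by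
    apply le_antisymm
    · exact ClassPred.alg_le
    · intro x hx
      refine ClassPred.sp_ind (Q := AH.hodgePred (toH T)) (q := fun x => x ∈ A) ?_ ?_ ?_ hx
      · intro j x hx
        obtain ⟨z, hz, rfl⟩ := hX j x hx
        exact Pool.Agent.Y129.span_le_algSpan j (Submodule.subset_span ⟨j, rfl, z, hz, rfl⟩)
      · exact Submodule.zero_mem _
      · intro a b ha hb; exact Submodule.add_mem _ ha hb
  let B : A →ₗ[T.W.K] Module.Dual T.W.K A :=
    LinearMap.mk₂ T.W.K (fun a a' : A => T.W.tr X ((a : T.W.H X) * (a' : T.W.H X)))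
      (fun a b c => by simp only [Submodule.coe_add, add_mul, map_add])
      (fun r a b => by simp only [Submodule.coe_smul, smul_mul_assoc, map_smul])
      (fun a b c => by simp only [Submodule.coe_add, mul_add, map_add])
      (fun r a b => by simp only [Submodule.coe_smul, mul_smul_comm, map_smul])
  have hBv : ∀ a a' : A, B a a' = T.W.tr X ((a : T.W.H X) * (a' : T.W.H X)) := fun _ _ => rfl
  have hinj : Function.Injective B := by
    rw [injective_iff_map_eq_zero]
    intro a ha
    have h1 : (a : T.W.H X) = 0 := by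
      refine AH.hodge_nondeg (T := toH T) (hA ▸ a.2) fun y hy => ?_
      rw [← hA] at hy
      have h2 := congrArg (fun f : Module.Dual T.W.K A => f ⟨y, hy⟩) ha
      exact h2
    exact Subtype.ext h1
  have hsurj : Function.Surjective B :=
    (LinearMap.injective_iff_surjective_of_finrank_eq_finrank
      (Subspace.dual_finrank_eq (K := T.W.K) (V := A)).symm).1 hinj
  let e := Module.finBasis T.W.K A
  choose d hd using fun t => hsurj (e.coord t)
  -- the reconstruction
  let R : T.W.H (X.prod Z) → T.W.H (X.prod Z) := fun c =>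
    ∑ t, T.W.map (fst X Z) (e t : T.W.H X) *
      T.W.map (snd X Z) (T.W.push (snd X Z) (T.W.map (fst X Z) (d t : T.W.H X) * c))
  have hRadd : ∀ x y, R (x + y) = R x + R y := by
    intro x y
    simp only [R, mul_add, map_add, Finset.sum_add_distrib]
  have hRsmul : ∀ (r : T.W.K) x, R (r • x) = r • R x := by
    intro r x
    simp only [R, mul_smul_comm, map_smul, Finset.smul_sum]
  have hRgen : ∀ (a : A) (b : T.W.H Z),
      R (T.W.map (fst X Z) (a : T.W.H X) * T.W.map (snd X Z) b) =
        T.W.map (fst X Z) (a : T.W.H X) * T.W.map (snd X Z) b := by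
    intro a b
    have h1 : ∀ t, T.W.push (snd X Z) (T.W.map (fst X Z) (d t : T.W.H X) *
        (T.W.map (fst X Z) (a : T.W.H X) * T.W.map (snd X Z) b)) = e.repr a t • b := by
      intro t
      rw [← mul_assoc, ← map_mul, HC.I.push_snd]
      have h2 : T.W.tr X ((d t : T.W.H X) * (a : T.W.H X)) = e.repr a t := by
        rw [← hBv, hd t]
        rfl
      rw [h2]
    simp only [R]
    rw [Finset.sum_congr rfl fun t _ => by rw [h1 t]]
    have h3 : (a : T.W.H X) = ∑ t, e.repr a t • (e t : T.W.H X) := by
      conv_lhs => rw [← e.sum_repr a]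
      rw [AddSubmonoidClass.coe_finsetSum]
      rfl
    conv_rhs => rw [h3]
    rw [map_sum, Finset.sum_mul]
    refine Finset.sum_congr rfl fun t _ => ?_
    rw [map_smul, map_smul, mul_smul_comm, smul_mul_assoc]
  have hRc : R c = c := by
    have h1 : c ∈ Submodule.span T.W.K (productClasses T X Z w) := hS w c (hQ _ _ _ hc)
    clear hc
    induction h1 using Submodule.span_induction with
    | mem x hx =>
      obtain ⟨i, l, a, b, -, ha, hb, rfl⟩ := hx
      exact hRgen ⟨T.W.cl X a, Pool.Agent.Y129.span_le_algSpan i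
        (Submodule.subset_span ⟨i, rfl, a, ha, rfl⟩)⟩ b
    | zero =>
      have := hRsmul 0 0
      rwa [zero_smul, zero_smul] at this
    | add x y _ _ h1 h2 => rw [hRadd, h1, h2]
    | smul a x _ h1 => rw [hRsmul, h1]
  have hcs : c ∈ Q.sys.C (X.prod Z) := ClassPred.sp_of hc
  have halg : ∀ (Y : 𝒱.Obj) (a : T.W.H Y), a ∈ algSpan T.W Y → a ∈ Q.sys.C Y :=
    fun Y a ha => ClassPred.alg_le ha
  have hcoord : ∀ t, T.W.push (snd X Z) (T.W.map (fst X Z) (d t : T.W.H X) * c) ∈ Q.sp Z :=
    fun t => Q.sys.push _ (Q.sys.mul (Q.sys.map _ (halg _ _ (d t).2)) hcs)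
  have hprod : ∀ a ∈ algSpan T.W X, ∀ v ∈ Q.sp Z, T.W.map (fst X Z) a * T.W.map (snd X Z) v ∈
      Submodule.span T.W.K (productsWith T.W X Z (Q.P Z)) := by
    intro a ha v hv
    refine algSpan_induction (p := fun a => T.W.map (fst X Z) a * T.W.map (snd X Z) v ∈
      Submodule.span T.W.K (productsWith T.W X Z (Q.P Z))) ?_ ?_ ?_ ?_ ha
    · rw [map_zero, zero_mul]; exact Submodule.zero_mem _
    · intro a b ha hb; rw [map_add, add_mul]; exact Submodule.add_mem _ ha hb
    · intro t a ha; rw [map_smul, smul_mul_assoc]; exact Submodule.smul_mem _ _ ha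
    · intro j z hz
      refine ClassPred.sp_ind (Q := Q) (q := fun v => T.W.map (fst X Z) (T.W.cl X z) *
        T.W.map (snd X Z) v ∈ Submodule.span T.W.K (productsWith T.W X Z (Q.P Z))) ?_ ?_ ?_ hv
      · intro l b hb
        exact Submodule.subset_span ⟨j, l, z, b, hz, hb, rfl⟩
      · rw [map_zero, mul_zero]; exact Submodule.zero_mem _
      · intro a b ha hb; rw [map_add, mul_add]; exact Submodule.add_mem _ ha hb
  show c ∈ Submodule.span T.W.K (productsWith T.W X Z (Q.P Z))
  rw [← hRc]
  exact Submodule.sum_mem _ fun t _ => hprod _ (e t).2 _ (hcoord t)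

end Pool.Agent.U222.AC
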